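import Mathlib
import Pool.Agent.H12x.CS.Fus

/-!
# A central sets theorem for prime tuples

Let `f_0, f_1, f_2, ...` be ARBITRARY sequences of integers `f_i = (f_i(0), f_i(1), ...)`. There are integers
`a_0, a_1, ...` and nonempty finite sets `H_0 < H_1 < ...` of natural numbers with the following property. Put

`g_m(i) = a_m + ∑_{t ∈ H_m} f_i(t)`, `i = 0, ..., m`.

These are positive integers; choose one of the `m + 1` of them for every `m`, `g_m = g_m(c_m)`, in any way. Then for all
finite sets `α_0 < α_1 < ... < α_(L-1)` the sums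

`γ_l =` the sum of all `g_m`, `m ∈ α_0 ∪ ... ∪ α_l`, `l = 0, ..., L - 1`,

form a prime tuple: there are infinitely many `n` for which exactly the numbers `n, n + γ_0, ..., n + γ_(L-1)` are prime
among all the integers of `[n - R, n + R]`, for every given `R`. (The `a_m`, `H_m` do not depend on the choices, on the
`α_l`, on `L` or on `R`.)

In particular all the sums `g_(m_1) + ... + g_(m_k)` are differences of consecutive primes infinitely often, for every one
of the choices. Example: for `f_i(t) = i` the `m + 1` numbers are an arithmetic progression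
`a_m, a_m + d_m, ..., a_m + m d_m` with `d_m = |H_m|`.

Proof. The ultrafilters which contain all solutions of the central sets theorem: a minimal idempotent `p` of `(ℤ, +)`
and an ultrafilter `q` on the pairs (integer, finite set) all of whose images under `(a, H) ↦ a + ∑_{t ∈ H} f(t)`, `f` any
sequence of integers, are `p`. Then the fusion along a tree of exact prime patterns, as in `Pool.Agent.H12x.VW`. The
prime number input is the theorem on infinite exact prime patterns in sequences of linear forms of the starting files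
(`Pool.Agent.N790.IA.classes`).
-/

set_option autoImplicit false

namespace Pool.Agent.Results.MP_68a45e_nt.CentralSetsGaps

open Finset

/-- a sequence of successive nonempty finite sets `H 0 < H 1 < ...` -/
def Blocks (H : ℕ → Finset ℕ) : Prop := (∀ m, (H m).Nonempty) ∧ ∀ m, ∀ i ∈ H m, ∀ j ∈ H (m + 1), i < j

/-- for every `R` there are infinitely many `n` such that among the integers `n + y`, `|y| ≤ R`, exactly `n` and the
numbers `n + γ l`, `l < L`, are primes -/
def Exact (L : ℕ) (γ : ℕ → ℤ) : Prop :=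
  ∀ R : ℕ, {n : ℕ | ∀ y : ℤ, |y| ≤ R → ((n + y).toNat.Prime ↔ y = 0 ∨ ∃ l < L, y = γ l)}.Infinite

theorem blocks_succ {H : ℕ → Finset ℕ} : Blocks H ↔ Pool.Agent.H12x.NC.Succ H := by
  constructor
  · intro h
    exact Pool.Agent.H12x.NC.Succ.of_blocks h
  · intro h
    exact ⟨h.ne, fun m => h.lt m (m + 1) (Nat.lt_succ_self m)⟩

theorem exact_of {L : ℕ} {γ : ℕ → ℤ}
    (h : Pool.Agent.H12x.VW.ExM ((range L).image (fun l => ((1 : ℤ), γ l)))) : Exact L γ := by
  intro R
  have h1 := h (((Icc (-(R : ℤ)) R).image (fun y => ((1 : ℤ), y))).filter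
      (fun g => g ∉ insert (1, 0) ((range L).image (fun l => ((1 : ℤ), γ l))))) (by
    intro g hg
    obtain ⟨h2, h3⟩ := mem_filter.1 hg
    obtain ⟨y, hy, rfl⟩ := mem_image.1 h2
    exact ⟨le_rfl, h3⟩)
  refine Set.Infinite.mono ?_ h1
  intro n hn y hy
  constructor
  · intro hp
    by_contra hno
    push Not at hno
    refine hn.2 (1, y) (mem_filter.2 ⟨mem_image_of_mem _ (mem_Icc.2 (abs_le.1 hy)), ?_⟩) ?_
    · intro h2
      rcases mem_insert.1 h2 with h3 | h3
      · exact hno.1 (Prod.ext_iff.1 h3).2
      · obtain ⟨l, hl, h4⟩ := mem_image.1 h3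
        exact hno.2 l (mem_range.1 hl) (Prod.ext_iff.1 h4).2.symm
    · simpa using hp
  · rintro (rfl | ⟨l, hl, rfl⟩)
    · have := hn.1 (1, 0) (mem_insert_self _ _)
      simpa using this
    · have := hn.1 (1, γ l) (mem_insert_of_mem (mem_image_of_mem _ (mem_range.2 hl)))
      simpa using this

theorem result : ∀ f : ℕ → ℕ → ℤ, ∃ (a : ℕ → ℤ) (H : ℕ → Finset ℕ), Blocks H ∧
    (∀ m, ∀ i ≤ m, 1 ≤ a m + ∑ t ∈ H m, f i t) ∧
    ∀ c : ℕ → ℕ, (∀ m, c m ≤ m) → ∀ α : ℕ → Finset ℕ, Blocks α → ∀ L : ℕ,
      Exact L (fun l => ∑ m ∈ (range (l + 1)).biUnion α, (a m + ∑ t ∈ H m, f (c m) t)) := by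
  intro f
  obtain ⟨a, H, hH, hpos, h⟩ := Pool.Agent.H12x.CS.main f
  exact ⟨a, H, blocks_succ.2 hH, hpos, fun c hc α hα L => exact_of (h c hc α (blocks_succ.1 hα) L)⟩

end Pool.Agent.Results.MP_68a45e_nt.CentralSetsGaps
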