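import Pool.Agent.H95SD.Sift

/-!
# Prime constellations all of whose differences are small multiples of elements of a given sparse set

Let `E` be an admissible finite set of natural numbers (for example `{0, 2, 6, 8}`) and `18 l < 5 |E|`. If a set
`A` of positive integers contains an arithmetic progression of `k = k(E)` terms, then there are `l + 1` elements
`i` of `E` and a prime constellation `p + m_i` with

  `m_j - m_i ∈ (j - i) A` for all `i < j`,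

for at least `x / (log x) ^ B` primes `p ≤ x`, at every scale `x ≥ C max A` and for infinitely many `x` with the
same `m`. Moreover, if `l ≥ 1`, then some `(j - i) a`, `a ∈ A`, is infinitely often a difference of two CONSECUTIVE
primes. So the set of the `a` for which none of the `(j - i) a` (`i < j` in `E`; for `E = {0, 2, 6, 8}`: none of
`2 a, 4 a, 6 a, 8 a`) is in this strong sense a difference of consecutive primes contains no `k` terms of an
arithmetic progression.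

This applies to all relatively dense subsets `A` of arbitrary sifted sets, in arbitrary intervals, for example to
all sets of primes which contain a positive proportion of the primes of an interval; moreover the elements of `A`
which are used lie in an interval of length `(log H) ^ D`, where `H` is the length of the given interval. In
particular one of `2 a, 4 a, 6 a, 8 a` is infinitely often a difference of two consecutive primes for almost all
primes `a`, and for almost all elements `a` of every sifted set.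

Starting files: the relative Szemerédi theorem for sifted sets (`Pool.Agent.Y843.HS.fin`), the coloured
Maynard-Tao theorem with the constant `18 / 5`, uniform in shifts as large as the variable
(`Pool.Agent.Y827.RO.lamR0`).
-/

set_option autoImplicit false

open Finset Filter

namespace Pool.Agent.Results.MP_68a45e_nt.DifferencesInSiftedSets

/-- For no prime `q` do the numbers `m i`, `i ∈ S`, meet every residue class modulo `q`. -/
def Admissible (S : Finset ℕ) (m : ℕ → ℕ) : Prop :=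
  ∀ q : ℕ, q.Prime → ∃ r < q, ∀ i ∈ S, m i % q ≠ r

/-- `S` is a subset of `E`, the shifts `m i`, `i ∈ S`, are admissible, the first one is `0`, and every difference
`m j - m i`, `i < j`, is `(j - i) a` for some element `a` of `A`. -/
structure Pattern (E : Finset ℕ) (A : Set ℕ) (S : Finset ℕ) (m : ℕ → ℕ) : Prop where
  sub : S ⊆ E
  adm : Admissible S m
  zero : ∀ i ∈ S, (∀ j ∈ S, i ≤ j) → m i = 0
  diff : ∀ i ∈ S, ∀ j ∈ S, i < j → ∃ a ∈ A, m j = m i + (j - i) * a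

/-- The number of the primes `p ≤ x` for which all the `p + m i`, `i ∈ S`, are prime: this is `π_P(x)` for the
vector `P` of the `m i`, `i ∈ S`, without the first one. -/
noncomputable def count (S : Finset ℕ) (m : ℕ → ℕ) (x : ℕ) : ℕ :=
  {p : ℕ | p ≤ x ∧ p.Prime ∧ ∀ i ∈ S, (p + m i).Prime}.ncard

/-- The number of the primes `p ≤ x` for which `p + h` is prime. -/
noncomputable def pairs (h x : ℕ) : ℕ := {p : ℕ | p ≤ x ∧ p.Prime ∧ (p + h).Prime}.ncard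

/-- The number of the primes `p ≤ x` for which `p + h` is the next prime. -/
noncomputable def gaps (h x : ℕ) : ℕ :=
  {p : ℕ | p ≤ x ∧ p.Prime ∧ (p + h).Prime ∧ ∀ q, p < q → q < p + h → ¬ q.Prime}.ncard

/-- `n` avoids the residue classes of `Z p` modulo `p` for all primes `p ≤ H ^ κ`. -/
def Sifted (κ : ℝ) (H : ℕ) (Z : ℕ → Finset ℕ) (n : ℕ) : Prop :=
  ∀ p : ℕ, p.Prime → (p : ℝ) ≤ (H : ℝ) ^ κ → n % p ∉ Z p

/-- For all primes `p ≤ H ^ κ`, `Z p` is a set of at most `r` of the residues modulo `p`, not all of them. -/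
def Sieve (r : ℕ) (κ : ℝ) (H : ℕ) (Z : ℕ → Finset ℕ) : Prop :=
  ∀ p : ℕ, p.Prime → (p : ℝ) ≤ (H : ℝ) ^ κ → (Z p).card ≤ r ∧ (Z p).card < p ∧ ∀ c ∈ Z p, c < p

/-- The expected number of sifted elements of an interval of length `H`. -/
noncomputable def expected (κ : ℝ) (H : ℕ) (Z : ℕ → Finset ℕ) : ℝ :=
  H * ∏ p ∈ (Icc 1 ⌊(H : ℝ) ^ κ⌋₊).filter Nat.Prime, (1 - ((Z p).card : ℝ) / p)

/-- For some `i < j` in `E` there are at least `x / (log x) ^ B` primes `p ≤ x` for which `p + (j - i) a` is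
prime. -/
def GoodAt (E : Finset ℕ) (B x a : ℕ) : Prop :=
  ∃ i ∈ E, ∃ j ∈ E, i < j ∧ (x : ℝ) / Real.log x ^ B ≤ (pairs ((j - i) * a) x : ℝ)

/-- For some `i < j` in `E` there are, for arbitrarily large `x`, at least `x / (log x) ^ B` primes `p ≤ x` for
which `p + (j - i) a` is the next prime. -/
def Good (E : Finset ℕ) (B a : ℕ) : Prop :=
  ∃ i ∈ E, ∃ j ∈ E, i < j ∧ ∃ᶠ x : ℕ in atTop, (x : ℝ) / Real.log x ^ B ≤ (gaps ((j - i) * a) x : ℝ)

/-- The constellations exist at every scale `x ≥ X`, `x ≥ x₀`, and some of them at infinitely many scales. -/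
def Rich (E : Finset ℕ) (l B x₀ : ℕ) (A : Set ℕ) (X : ℕ) : Prop :=
  (∀ x : ℕ, x₀ ≤ x → X ≤ x → ∃ (S : Finset ℕ) (m : ℕ → ℕ), l + 1 ≤ S.card ∧ Pattern E A S m ∧
    (x : ℝ) / Real.log x ^ B ≤ (count S m x : ℝ)) ∧
  (∃ (S : Finset ℕ) (m : ℕ → ℕ), l + 1 ≤ S.card ∧ Pattern E A S m ∧
    ∃ᶠ x : ℕ in atTop, (x : ℝ) / Real.log x ^ B ≤ (count S m x : ℝ)) ∧
  (1 ≤ l → ∃ a ∈ A, Good E B a)

theorem adm_iff (S : Finset ℕ) (m : ℕ → ℕ) : Admissible S m ↔ Pool.Agent.H95SD.Adm S m := Iff.rfl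

theorem pattern_of {E : Finset ℕ} {A : Set ℕ} {S : Finset ℕ} {m : ℕ → ℕ}
    (h : Pool.Agent.H95SD.Pat E A S m) : Pattern E A S m :=
  ⟨h.sub, h.adm, h.zero, h.diff⟩

theorem pat_of {E : Finset ℕ} {A : Set ℕ} {S : Finset ℕ} {m : ℕ → ℕ}
    (h : Pattern E A S m) : Pool.Agent.H95SD.Pat E A S m :=
  ⟨h.sub, h.zero, h.adm, h.diff⟩

theorem expected_eq (κ : ℝ) (H : ℕ) (Z : ℕ → Finset ℕ) :
    expected κ H Z = H * Pool.Agent.Y843.HS.VV Z 0 ⌊(H : ℝ) ^ κ⌋₊ := rfl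

theorem Rich.mono {E : Finset ℕ} {l B x₀ : ℕ} {A A' : Set ℕ} {X X' : ℕ} (h : Rich E l B x₀ A X)
    (hA : A ⊆ A') (hX : X ≤ X') : Rich E l B x₀ A' X' := by
  have key : ∀ (S : Finset ℕ) (m : ℕ → ℕ), Pattern E A S m → Pattern E A' S m := by
    intro S m hp
    refine ⟨hp.sub, hp.adm, hp.zero, fun i hi j hj hij => ?_⟩
    obtain ⟨a, ha, h1⟩ := hp.diff i hi j hj hij
    exact ⟨a, hA ha, h1⟩
  obtain ⟨h1, ⟨S, m, hS, hp, hx⟩, h3⟩ := h
  refine ⟨fun x hx0 hxX => ?_, ⟨S, m, hS, key S m hp, hx⟩, fun hl => ?_⟩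
  · obtain ⟨S, m, hS, hp, hx⟩ := h1 x hx0 (hX.trans hxX)
    exact ⟨S, m, hS, key S m hp, hx⟩
  · obtain ⟨a, ha, hg⟩ := h3 hl
    exact ⟨a, hA ha, hg⟩

theorem Rich.goodAt {E : Finset ℕ} {l B x₀ : ℕ} {A : Set ℕ} {X : ℕ} (hl : 1 ≤ l)
    (h : Rich E l B x₀ A X) {x : ℕ} (h0 : x₀ ≤ x) (hX : X ≤ x) : ∃ a ∈ A, GoodAt E B x a := by
  obtain ⟨S, m, hS, hp, hx⟩ := h.1 x h0 hX
  obtain ⟨i, hi, j, hj, hij, a, ha, hle⟩ := Pool.Agent.H95SD.pair hl hS (pat_of hp)
  refine ⟨a, ha, i, hi, j, hj, hij, hx.trans ?_⟩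
  exact_mod_cast hle x

open Classical in
/-- `E` is an admissible set of natural numbers and `18 l < 5 |E|`.

1. (progressions) Sets which contain `k` terms of an arithmetic progression.
2. (sifted sets) Sets `A` of sifted elements of an interval `(u, u + H]` with at least `δ` times the expected
   number of elements.
3. (almost all elements of sifted sets) For `l ≥ 1`, that is, for all admissible `E` with at least four elements.
4. (almost all primes) The number of the exceptional primes in `(u, u + H]` is at most `ε H / log H`. -/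
theorem result (E : Finset ℕ) (hE : Admissible E id) (l : ℕ) (hl : 18 * l < 5 * E.card) :
    ∃ B C x₀ k : ℕ,
    (∀ a d : ℕ, 1 ≤ a → 1 ≤ d → Rich E l B x₀ {n | ∃ j < k, n = a + j * d} (C * (a + k * d))) ∧
    (∀ (r : ℕ) (κ δ : ℝ), 0 < κ → 0 < δ → ∃ D H₀ : ℕ, ∀ H u : ℕ, H₀ ≤ H → ∀ Z : ℕ → Finset ℕ,
      Sieve r κ H Z → ∀ A : Finset ℕ, (∀ n ∈ A, u < n ∧ n ≤ u + H ∧ Sifted κ H Z n) →
      δ * expected κ H Z ≤ A.card → ∃ v : ℕ,
      Rich E l B x₀ {n | n ∈ A ∧ v ≤ n ∧ (n : ℝ) ≤ v + Real.log H ^ D} (C * (u + H))) ∧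
    (1 ≤ l → ∀ (r : ℕ) (κ ε : ℝ), 0 < κ → 0 < ε → ∃ H₀ : ℕ, ∀ H u : ℕ, H₀ ≤ H →
      ∀ Z : ℕ → Finset ℕ, Sieve r κ H Z →
      (((Ioc u (u + H)).filter (fun a => Sifted κ H Z a ∧ ¬ Good E B a)).card : ℝ) ≤
        ε * expected κ H Z ∧
      ∀ x : ℕ, x₀ ≤ x → C * (u + H) ≤ x →
        (((Ioc u (u + H)).filter (fun a => Sifted κ H Z a ∧ ¬ GoodAt E B x a)).card : ℝ) ≤
          ε * expected κ H Z) ∧
    (1 ≤ l → ∀ ε : ℝ, 0 < ε → ∃ H₀ : ℕ, ∀ H u : ℕ, H₀ ≤ H →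
      (((Ioc u (u + H)).filter (fun a => a.Prime ∧ ¬ Good E B a)).card : ℝ) ≤
        ε * (H / Real.log H) ∧
      ∀ x : ℕ, x₀ ≤ x → C * (u + H) ≤ x →
        (((Ioc u (u + H)).filter (fun a => a.Prime ∧ ¬ GoodAt E B x a)).card : ℝ) ≤
          ε * (H / Real.log H)) := by
  obtain ⟨B, C, x₀, k, hC, hk, h⟩ := Pool.Agent.H95SD.main E hE l (Pool.Agent.H95SD.arr_of _ _ hl)
  have h1 : ∀ a d : ℕ, 1 ≤ a → 1 ≤ d →
      Rich E l B x₀ {n | ∃ j < k, n = a + j * d} (C * (a + k * d)) := by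
    intro a d ha hd
    obtain ⟨h1, ⟨S, m, hS, hp, hx⟩, h3⟩ := h a d ha hd {n | ∃ j < k, n = a + j * d}
      (fun j hj => ⟨j, hj, rfl⟩)
    refine ⟨fun x hx0 hxX => ?_, ⟨S, m, hS, pattern_of hp, hx⟩, fun hl1 => ?_⟩
    · obtain ⟨S, m, hS, hp, hx⟩ := h1 x hx0 hxX
      exact ⟨S, m, hS, pattern_of hp, hx⟩
    · obtain ⟨i, hi, j, hj, hij, s, hs, hx⟩ := h3 hl1
      exact ⟨s, hs, i, hi, j, hj, hij, hx⟩
  have h2 : ∀ (r : ℕ) (κ δ : ℝ), 0 < κ → 0 < δ → ∃ D H₀ : ℕ, ∀ H u : ℕ, H₀ ≤ H →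
      ∀ Z : ℕ → Finset ℕ, Sieve r κ H Z → ∀ A : Finset ℕ,
      (∀ n ∈ A, u < n ∧ n ≤ u + H ∧ Sifted κ H Z n) → δ * expected κ H Z ≤ A.card → ∃ v : ℕ,
      Rich E l B x₀ {n | n ∈ A ∧ v ≤ n ∧ (n : ℝ) ≤ v + Real.log H ^ D} (2 * C * (u + H)) := by
    intro r κ δ hκ hδ
    obtain ⟨D, H₀, hs⟩ := Pool.Agent.H95SD.sift C k r κ δ hk hκ hδ
    refine ⟨D, H₀, fun H u hH Z hZ A hA hc => ?_⟩
    rw [expected_eq, ← mul_assoc] at hc
    obtain ⟨a, d, ha, hd, hj, hle, hD⟩ := hs H u hH Z hZ A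
      (fun n hn => mem_Ioc.2 ⟨(hA n hn).1, (hA n hn).2.1⟩) (fun n hn => (hA n hn).2.2) hc
    refine ⟨a, (h1 a d ha hd).mono ?_ hle⟩
    rintro n ⟨j, hjk, rfl⟩
    refine ⟨hj j hjk, by omega, ?_⟩
    have h3 : (j * d : ℝ) ≤ k * d := by
      have h4 : (j : ℝ) ≤ k := by exact_mod_cast hjk.le
      exact mul_le_mul_of_nonneg_right h4 (Nat.cast_nonneg _)
    push_cast
    linarith
  have h3 : 1 ≤ l → ∀ (r : ℕ) (κ ε : ℝ), 0 < κ → 0 < ε → ∃ H₀ : ℕ, ∀ H u : ℕ, H₀ ≤ H →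
      ∀ Z : ℕ → Finset ℕ, Sieve r κ H Z → ∀ A : Finset ℕ,
      (∀ n ∈ A, u < n ∧ n ≤ u + H ∧ Sifted κ H Z n) →
      ((∀ a ∈ A, ¬ Good E B a) ∨ ∃ x : ℕ, x₀ ≤ x ∧ 2 * C * (u + H) ≤ x ∧ ∀ a ∈ A, ¬ GoodAt E B x a) →
      (A.card : ℝ) ≤ ε * expected κ H Z := by
    intro hl1 r κ ε hκ hε
    obtain ⟨D, H₀, hs⟩ := h2 r κ ε hκ hε
    refine ⟨H₀, fun H u hH Z hZ A hA hbad => ?_⟩
    by_contra hcon
    push Not at hcon
    obtain ⟨v, hv⟩ := hs H u hH Z hZ A hA hcon.le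
    rcases hbad with hbad | ⟨x, hx0, hxX, hbad⟩
    · obtain ⟨a, ha, hg⟩ := hv.2.2 hl1
      exact hbad a ha.1 hg
    · obtain ⟨a, ha, hg⟩ := hv.goodAt hl1 hx0 hxX
      exact hbad a ha.1 hg
  refine ⟨B, 2 * C, x₀, k, ?_, h2, ?_, ?_⟩
  · intro a d ha hd
    refine (h1 a d ha hd).mono subset_rfl ?_
    exact Nat.mul_le_mul_right _ (by omega)
  · intro hl1 r κ ε hκ hε
    obtain ⟨H₀, hs⟩ := h3 hl1 r κ ε hκ hε
    refine ⟨H₀, fun H u hH Z hZ => ⟨?_, fun x hx0 hxX => ?_⟩⟩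
    · refine hs H u hH Z hZ _ (fun n hn => ?_) (Or.inl fun a ha => ((mem_filter.1 ha).2).2)
      obtain ⟨h4, h5⟩ := mem_filter.1 hn
      exact ⟨(mem_Ioc.1 h4).1, (mem_Ioc.1 h4).2, h5.1⟩
    · refine hs H u hH Z hZ _ (fun n hn => ?_)
        (Or.inr ⟨x, hx0, hxX, fun a ha => ((mem_filter.1 ha).2).2⟩)
      obtain ⟨h4, h5⟩ := mem_filter.1 hn
      exact ⟨(mem_Ioc.1 h4).1, (mem_Ioc.1 h4).2, h5.1⟩
  · intro hl1 ε hε
    obtain ⟨H₁, hs⟩ := h3 hl1 1 (1 / 2) (ε / 4) (by norm_num) (by positivity)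
    obtain ⟨H₂, hp⟩ := Pool.Agent.H95SD.small_primes ε hε
    have hsv : ∀ H : ℕ, Sieve 1 (1 / 2) H (fun _ => {0}) := by
      intro H p hp _
      refine ⟨by simp, ?_, fun c hc => ?_⟩
      · rw [card_singleton]; exact hp.one_lt
      · rw [mem_singleton.1 hc]; exact hp.pos
    refine ⟨max H₁ H₂, fun H u hH => ⟨?_, fun x hx0 hxX => ?_⟩⟩
    · refine hp H u ((le_max_right _ _).trans hH) _ (filter_subset _ _)
        (fun n hn => (mem_filter.1 hn).2.1) fun A' hA' hsf => ?_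
      have h4 := hs H u ((le_max_left _ _).trans hH) (fun _ => {0}) (hsv H) A' (fun n hn => ?_)
        (Or.inl fun a ha => ((mem_filter.1 (hA' ha)).2).2)
      · rw [expected_eq, ← mul_assoc] at h4
        exact h4
      · have h5 := mem_Ioc.1 (mem_filter.1 (hA' hn)).1
        exact ⟨h5.1, h5.2, hsf n hn⟩
    · refine hp H u ((le_max_right _ _).trans hH) _ (filter_subset _ _)
        (fun n hn => (mem_filter.1 hn).2.1) fun A' hA' hsf => ?_
      have h4 := hs H u ((le_max_left _ _).trans hH) (fun _ => {0}) (hsv H) A' (fun n hn => ?_)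
        (Or.inr ⟨x, hx0, hxX, fun a ha => ((mem_filter.1 (hA' ha)).2).2⟩)
      · rw [expected_eq, ← mul_assoc] at h4
        exact h4
      · have h5 := mem_Ioc.1 (mem_filter.1 (hA' hn)).1
        exact ⟨h5.1, h5.2, hsf n hn⟩

end Pool.Agent.Results.MP_68a45e_nt.DifferencesInSiftedSets
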