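import Pool.Agent.H85G.F
import Pool.Agent.H85G.S2

/-!
# The asymptotic formula of Hardy and Littlewood for prime tuples, for shifts whose digits have long range interactions

The shifts `a_i` are the integers close to `c_i + κ_i v_i` with independent random integers `v_i < b ^ k`. The digits of `v_i`
form a Gibbs measure: the interactions have unbounded range, involve any number of digits, and are neither small nor
translation invariant; the only condition is that they are summable at each position. The a priori measure is an arbitrary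
Markov random field with flexible digits on an arbitrary graph of positions of bounded degree. With a high probability the
formula of Hardy and Littlewood holds for ALL the shifts nearby and for the primes up to `N`, for ALL `N` between `b ^ k / B`
and `B b ^ k` at once.

Method: the exponential sums over these measures are exponentially small in the number of the positions at which the
frequency has a digit which is not extremal (`Pool.Agent.H85G`); so the random integers have a thin large spectrum, and the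
prime tuples up to one `N` can be counted (starting files, `Pool.Agent.N469.PT.ws_final`); a grid of `N` gives all of them.
-/

set_option autoImplicit false

namespace Pool.Agent.Results.MP_68a45e_nt.LongRangeGibbsShifts

open Finset

/-- The digit of `v` at the position `i` in base `b` (the position `0` is the least significant one). -/
def dig (b v i : ℕ) : ℕ := v / b ^ i % b

/-- The integer which has the digits of `v` at the positions in `S` and the digits of `w` at the other positions below `k`. -/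
def splice (b k : ℕ) (S : Finset ℕ) (v w : ℕ) : ℕ := ∑ i ∈ range k, (if i ∈ S then dig b v i else dig b w i) * b ^ i

/-- `v` and `w` have the same digits outside the set `S` of positions. -/
def Off (b : ℕ) (S : Finset ℕ) (v w : ℕ) : Prop := ∀ i, i ∉ S → dig b v i = dig b w i

open Classical in
/-- The closed neighbourhood of the position `i` in the graph `A` on the positions `0, …, k - 1`. -/
noncomputable def nb (k : ℕ) (A : ℕ → ℕ → Prop) (i : ℕ) : Finset ℕ := (range k).filter fun j => j = i ∨ A i j

open Classical in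
/-- The total weight of the integers below `b ^ k` which have the same digits as `v` outside `S`. -/
noncomputable def mass (b k : ℕ) (q : ℕ → ℝ) (S : Finset ℕ) (v : ℕ) : ℝ :=
  ∑ w ∈ (range (b ^ k)).filter (fun w => Off b S w v), q w

/-- The a priori measure: the digits of a random integer `v < b ^ k` (with the probabilities `q v`) form a Markov random
field on a graph `A` of positions with degrees at most `Δ` (for every set `S` of positions and all `v`, `w` which have the
same digits at the positions outside `S` adjacent to `S`, the product `q v * q w` does not change if `v` and `w` exchange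
their digits in `S`), and each digit is flexible: for every `v` with `q v ≠ 0` and every position `i`, there are `x` and `y`
which have the same digits as `v` outside the closed neighbourhood of `i`, which differ from each other exactly at the
position `i`, and whose conditional probabilities, given the digits outside this neighbourhood, are at least `η`. (For
instance, with `Δ = 0`: independent digits, each of which has at least two values with probabilities at least `η`.) -/
structure RandomField (b k Δ : ℕ) (η : ℝ) (A : ℕ → ℕ → Prop) (q : ℕ → ℝ) : Prop where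
  symm : ∀ i j, A i j → A j i
  degree : ∀ i < k, (nb k A i).card ≤ Δ + 1
  nonneg : ∀ v, 0 ≤ q v
  sum : ∑ v ∈ range (b ^ k), q v = 1
  markov : ∀ S : Finset ℕ, ∀ v < b ^ k, ∀ w < b ^ k, (∀ i ∈ S, ∀ j < k, j ∉ S → A i j → dig b v j = dig b w j) →
    q v * q w = q (splice b k S v w) * q (splice b k S w v)
  flexible : ∀ v < b ^ k, q v ≠ 0 → ∀ i < k, ∃ x < b ^ k, ∃ y < b ^ k, Off b (nb k A i) x v ∧ Off b {i} y x ∧
    dig b y i ≠ dig b x i ∧ η * mass b k q (nb k A i) v ≤ q x ∧ η * mass b k q (nb k A i) v ≤ q y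

/-- The interactions `φ X`, for all sets `X ⊆ {0, …, k - 1}` of positions: `φ X v` depends only on the digits of `v` at the
positions in `X`, its absolute value is at most `N X`, and for each position `i` the sum of `exp (r * |X|) * N X` over the
sets `X` which contain `i` is at most `M`. (For instance, pair interactions `φ {i, j}` with `∑ j, N {i, j} ≤ exp (- 2 r) M`
for all `i`, at arbitrary distances.) -/
structure Interaction (b k : ℕ) (M r : ℝ) (φ : Finset ℕ → ℕ → ℝ) (N : Finset ℕ → ℝ) : Prop where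
  depends : ∀ X ⊆ range k, ∀ v < b ^ k, ∀ w < b ^ k, (∀ i ∈ X, dig b v i = dig b w i) → φ X v = φ X w
  bound : ∀ X ⊆ range k, ∀ v < b ^ k, |φ X v| ≤ N X
  summable : ∀ i < k, ∑ X ∈ (range k).powerset.filter (fun X => i ∈ X), Real.exp (r * X.card) * N X ≤ M

/-- The Gibbs weight: the a priori weight times the exponential of the sum of all the interactions. -/
noncomputable def weight (k : ℕ) (q : ℕ → ℝ) (φ : Finset ℕ → ℕ → ℝ) (v : ℕ) : ℝ :=
  q v * Real.exp (∑ X ∈ (range k).powerset, φ X v)

/-- The Gibbs measure: the probability of `v < b ^ k`. -/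
noncomputable def gibbs (b k : ℕ) (q : ℕ → ℝ) (φ : Finset ℕ → ℕ → ℝ) (v : ℕ) : ℝ :=
  weight k q φ v / ∑ w ∈ range (b ^ k), weight k q φ w

lemma field_conv {b k Δ : ℕ} {η : ℝ} {A : ℕ → ℕ → Prop} {q : ℕ → ℝ} (h : RandomField b k Δ η A q) :
    Pool.Agent.N213.GF.Field b k Δ η A q :=
  ⟨h.symm, h.degree, h.nonneg, h.sum, h.markov, h.flexible⟩

lemma inter_conv {b k : ℕ} {M r : ℝ} {φ : Finset ℕ → ℕ → ℝ} {N : Finset ℕ → ℝ} (hb : 2 ≤ b) (h : Interaction b k M r φ N) :
    Pool.Agent.H85G.Inter b k (max M 0) r (fun X v => if X ⊆ range k then φ X v else 0)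
      (fun X => if X ⊆ range k then N X else 0) := by
  have h0 : ∀ X ⊆ range k, 0 ≤ N X := by
    intro X hX
    exact (abs_nonneg _).trans (h.bound X hX 0 (by positivity))
  refine ⟨?_, ?_, ?_, ?_⟩
  · intro X v hv w hw hvw
    split_ifs with hX
    · exact h.depends X hX v hv w hw hvw
    · rfl
  · intro X v hv
    split_ifs with hX
    · exact h.bound X hX v hv
    · rw [abs_zero]
  · intro X
    split_ifs with hX
    · exact h0 X hX
    · exact le_rfl
  · intro i hi
    refine le_trans (le_of_eq ?_) ((h.summable i hi).trans (le_max_left _ _))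
    apply sum_congr rfl
    intro X hX
    rw [mem_filter, mem_powerset] at hX
    beta_reduce
    rw [if_pos hX.1]

lemma energy_conv {k : ℕ} (φ : Finset ℕ → ℕ → ℝ) (v : ℕ) :
    Pool.Agent.H85G.energy k (fun X v => if X ⊆ range k then φ X v else 0) v = ∑ X ∈ (range k).powerset, φ X v := by
  unfold Pool.Agent.H85G.energy
  apply sum_congr rfl
  intro X hX
  beta_reduce
  rw [if_pos (mem_powerset.1 hX)]

lemma gt_conv {b k Δ : ℕ} (hb : 2 ≤ b) {η M r : ℝ} {A : ℕ → ℕ → Prop} {q : ℕ → ℝ} {φ : Finset ℕ → ℕ → ℝ} {N : Finset ℕ → ℝ}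
    (hq : RandomField b k Δ η A q) (hφ : Interaction b k M r φ N) :
    Pool.Agent.H85G.GT b Δ η (max M 0) r k (gibbs b k q φ) := by
  refine ⟨A, q, _, _, field_conv hq, inter_conv hb hφ, ?_⟩
  funext v
  unfold gibbs weight Pool.Agent.H85G.gibbs
  simp only [energy_conv]

/-- The number of the residues `r` modulo `ℓ` for which `ℓ` divides `r (r + a_1) ... (r + a_s)`, for primes `ℓ`. -/
def nu {s : ℕ} (a : Fin s → ℕ) (ℓ : ℕ) : ℕ := ((range ℓ).filter (fun r => ℓ ∣ r ∨ ∃ i, ℓ ∣ r + a i)).card

/-- The partial product of the singular series of Hardy and Littlewood over the primes `ℓ ≤ z`. -/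
noncomputable def sing {s : ℕ} (a : Fin s → ℕ) (z : ℕ) : ℝ :=
  ∏ ℓ ∈ (Icc 1 z).filter Nat.Prime, (1 - (nu a ℓ : ℝ) / ℓ) / (1 - 1 / (ℓ : ℝ)) ^ (s + 1)

/-- No prime `ℓ` divides `r (r + a_1) ... (r + a_s)` for all `r`. -/
def Admissible {s : ℕ} (a : Fin s → ℕ) : Prop := ∀ ℓ : ℕ, ℓ.Prime → ∃ r : ℕ, ¬ ℓ ∣ r ∧ ∀ i, ¬ ℓ ∣ r + a i

/-- The number of the primes `p ≤ N` for which all the `p + a_i` are primes. -/
def tuples {s : ℕ} (a : Fin s → ℕ) (N : ℕ) : ℕ := ((Icc 1 N).filter (fun p : ℕ => p.Prime ∧ ∀ i, (p + a i).Prime)).card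

/-- The same primes, counted with the weight `log p log (p + a_1) ... log (p + a_s)`. -/
noncomputable def weighted {s : ℕ} (a : Fin s → ℕ) (N : ℕ) : ℝ :=
  ∑ p ∈ (Icc 1 N).filter (fun p : ℕ => p.Prime ∧ ∀ i, (p + a i).Prime), Real.log p * ∏ i, Real.log ((p : ℝ) + a i)

/-- The formula of Hardy and Littlewood for the shifts `a_1, ..., a_s` and the primes up to `N`: the singular series converges,
its value `S` predicts the weighted number of prime tuples with an error of at most `N / log ^ U N`, and, if the shifts are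
admissible, `S` is positive and `S N / log ^ (s + 1) N` predicts the number of prime tuples with a relative error of at most
`ε`. -/
def Holds {s : ℕ} (ε : ℝ) (U N : ℕ) (a : Fin s → ℕ) : Prop :=
  ∃ S : ℝ, Filter.Tendsto (sing a) Filter.atTop (nhds S) ∧ |weighted a N - S * N| ≤ (N : ℝ) / Real.log N ^ U ∧
    (Admissible a → 0 < S ∧ |(tuples a N : ℝ) - S * (N / Real.log N ^ (s + 1))| ≤ ε * (S * (N / Real.log N ^ (s + 1))))

/-! ### the forms of the starting files -/

open Pool.Agent.W93.TD (HLs)

lemma nu_eq {s : ℕ} (a : Fin s → ℕ) (ℓ : ℕ) : Pool.Agent.H373R2.T7.nuP (fun i => (a i : ℤ)) ℓ = nu a ℓ := by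
  unfold Pool.Agent.H373R2.T7.nuP nu
  congr 1
  apply filter_congr
  intro r _
  have : ∀ i, ((ℓ : ℤ) ∣ (r : ℤ) + (a i : ℤ)) ↔ ℓ ∣ r + a i := fun i => by
    rw [← Nat.cast_add]
    exact Int.natCast_dvd_natCast
  simp only [this]

lemma sing_eq {s : ℕ} (a : Fin s → ℕ) : Pool.Agent.H373R2.T7.singZ (fun i => (a i : ℤ)) = sing a := by
  funext z
  unfold Pool.Agent.H373R2.T7.singZ sing
  simp only [nu_eq]

lemma adm_of {s : ℕ} (a : Fin s → ℕ) (h : Admissible a) : Pool.Agent.H373R2.T7.Admissible (fun i => (a i : ℤ)) := by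
  intro ℓ hℓ
  obtain ⟨r, h1, h2⟩ := h ℓ hℓ
  refine ⟨(r : ℤ), fun h3 => h1 (by exact_mod_cast h3), fun i h3 => h2 i ?_⟩
  have h3' : (ℓ : ℤ) ∣ (r : ℤ) + (a i : ℤ) := h3
  rw [← Nat.cast_add] at h3'
  exact Int.natCast_dvd_natCast.1 h3'

lemma holds_of {s : ℕ} (ε : ℝ) (U N : ℕ) (a : Fin s → ℕ) (h : HLs (min ε 1) U N a) : Holds ε U N a := by
  obtain ⟨S, h1, h2, h3⟩ := h
  refine ⟨S, ?_, ?_, ?_⟩
  · rw [← sing_eq a]
    exact h1
  · rw [Pool.Agent.H560R3.GB.tupleCount_nat] at h2
    exact h2
  · intro hadm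
    obtain ⟨h4, h5⟩ := h3 (adm_of a hadm)
    refine ⟨h4, le_trans h5 ?_⟩
    apply mul_le_mul_of_nonneg_right (min_le_left _ _)
    have := Real.log_natCast_nonneg N
    positivity

open Classical in
/-- Let `s ≥ 1`, `b ≥ 2`, `Δ`, `η > 0`, `M`, `r > 0`, `κ_i ≥ 1`, `B`, `U`, `W` and `ε > 0` be fixed, let `k` be large and
`c_i ≤ B b ^ k`. Let the `v_i < b ^ k` be independent random integers whose digits have the Gibbs distributions of arbitrary
interactions which are summable at each position (with the bound `M`), with respect to arbitrary Markov random fields with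
flexible digits on graphs of positions with degrees at most `Δ`. With a probability of at least `1 - 1 / k ^ U` the formula of
Hardy and Littlewood holds for the primes up to `N` and the shifts `a_i = c_i + κ_i v_i + t_i`, for ALL `N` with
`b ^ k ≤ B N`, `N ≤ B b ^ k` and ALL `0 ≤ t_i ≤ k ^ W`. -/
theorem result (s : ℕ) (hs : 1 ≤ s) (b : ℕ) (hb : 2 ≤ b) (Δ : ℕ) (η : ℝ) (hη : 0 < η) (M r : ℝ) (hr : 0 < r)
    (κ : Fin s → ℕ) (hκ : ∀ i, 1 ≤ κ i) (B U W : ℕ) (ε : ℝ) (hε : 0 < ε) :
    ∃ k₀ : ℕ, ∀ k : ℕ, k₀ ≤ k →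
    ∀ (A : Fin s → ℕ → ℕ → Prop) (q : Fin s → ℕ → ℝ), (∀ i, RandomField b k Δ η (A i) (q i)) →
    ∀ (φ : Fin s → Finset ℕ → ℕ → ℝ) (R : Fin s → Finset ℕ → ℝ), (∀ i, Interaction b k M r (φ i) (R i)) →
    ∀ c : Fin s → ℕ, (∀ i, c i ≤ B * b ^ k) →
      ∑ v ∈ Fintype.piFinset (fun _ : Fin s => range (b ^ k)), (if ∀ N : ℕ, b ^ k ≤ B * N → N ≤ B * b ^ k →
        ∀ t : Fin s → ℕ, (∀ i, t i ≤ k ^ W) → Holds ε U N (fun i => c i + κ i * v i + t i) then 0
        else ∏ i, gibbs b k (q i) (φ i) (v i)) ≤ 1 / (k : ℝ) ^ U := by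
  have hGood := Pool.Agent.H85G.gt_good b Δ hb η (max M 0) r hη (le_max_right _ _) hr
  obtain ⟨k₀, hk₀⟩ := Pool.Agent.H85G.good_shifts_all s hs b hb (fun _ => Pool.Agent.H85G.GT b Δ η (max M 0) r)
    (fun _ => hGood) κ hκ B U W (min ε 1) (lt_min hε one_pos) (min_le_right _ _)
  refine ⟨k₀, fun k hk A q hq φ R hφ c hc => ?_⟩
  obtain ⟨p, hpd⟩ : ∃ p : Fin s → ℕ → ℝ, p = fun i => gibbs b k (q i) (φ i) := ⟨_, rfl⟩
  have hp : ∀ i, Pool.Agent.H85G.GT b Δ η (max M 0) r k (p i) := fun i => by
    rw [hpd]
    exact gt_conv hb (hq i) (hφ i)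
  have hp0 : ∀ i v, 0 ≤ p i v := fun i v => hGood.nonneg k (p i) (hp i) v
  have hpe : ∀ v : Fin s → ℕ, ∏ i, gibbs b k (q i) (φ i) (v i) = ∏ i, p i (v i) := fun v => by rw [hpd]
  simp only [hpe]
  refine le_trans (sum_le_sum fun v _ => ?_) (hk₀ k hk p hp c hc)
  by_cases hv : ∀ N : ℕ, b ^ k ≤ B * N → N ≤ B * b ^ k →
        ∀ t : Fin s → ℕ, (∀ i, t i ≤ k ^ W) → HLs (min ε 1) U N (fun i => c i + κ i * v i + t i)
  · rw [if_pos hv, if_pos]
    intro N hN1 hN2 t ht
    exact holds_of ε U N _ (hv N hN1 hN2 t ht)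
  · rw [if_neg hv]
    split_ifs
    · exact prod_nonneg fun i _ => hp0 i _
    · exact le_rfl

end Pool.Agent.Results.MP_68a45e_nt.LongRangeGibbsShifts
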