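import Pool.Agent.H85G.S4
import Pool.Agent.N469.TL.Levels

/-!
# The formula of Hardy and Littlewood for prime tuples holds for almost all vectors of shifts near integers composed of few small
# primes, for all the primes up to `N`, for all `N` of a range

Let `P_1, ..., P_s` be sets of primes `≤ y_i`, where `y_i` is at most a power of `log X`, with at least
`y_i ^ (1 / 2 + δ) log X` elements, and let `x_i ≤ X ≤ B x_i`. Almost all the vectors of integers `v_i ≤ x_i` composed of primes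
from `P_i` have the following property: for ALL `N` with `X ≤ N ≤ B X` and ALL the shifts `a_i = c_i + κ_i v_i + t_i`,
`0 ≤ t_i ≤ log ^ W X`, the number of the primes `p ≤ N` for which all the `p + a_i` are primes is given by the formula of Hardy
and Littlewood (the weighted number with an error of at most `N / log ^ U N`). The exceptions are a proportion of
`1 / log ^ U X`, with `U` as large as one wants. There can be as few as about `x_i ^ (1 / 2 + δ)` integers `v_i` of this kind.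
In particular, this holds for the `y_i`-smooth integers `v_i ≤ x_i`, if `log ^ (2 + δ) X ≤ y_i ≤ log ^ K X`.

Method: the exponential sum over the integers composed of primes from a given set is large only near few rational numbers
with small denominators (`Pool.Agent.N469.SQ.sm_one`, library), so the prime tuples with such shifts can be counted for one `N`
and one vector of shifts (starting files, `Pool.Agent.N469.PT.ws_final`). All the vectors of shifts nearby and all `N` of the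
range: `Pool.Agent.H85G.one_shifts_all`.
-/

set_option autoImplicit false

namespace Pool.Agent.Results.MP_68a45e_nt.SmoothShifts

open Finset

/-- The integers `1 ≤ v ≤ x` all of whose prime factors belong to `P`. -/
def composedOf (P : Finset ℕ) (x : ℕ) : Finset ℕ := (Icc 1 x).filter fun v => v.primeFactors ⊆ P

/-- The `y`-smooth integers `1 ≤ v ≤ x`: the integers all of whose prime factors are at most `y`. -/
def smooth (y x : ℕ) : Finset ℕ := (Icc 1 x).filter fun v => ∀ p ∈ v.primeFactors, p ≤ y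

/-- The number of the residues `r` modulo `ℓ` for which `ℓ` divides `r (r + a_1) ... (r + a_s)`, for primes `ℓ`. -/
def nu {s : ℕ} (a : Fin s → ℕ) (ℓ : ℕ) : ℕ := ((range ℓ).filter (fun r => ℓ ∣ r ∨ ∃ i, ℓ ∣ r + a i)).card

/-- The partial product of the singular series of Hardy and Littlewood over the primes `ℓ ≤ z`. -/
noncomputable def sing {s : ℕ} (a : Fin s → ℕ) (z : ℕ) : ℝ :=
  ∏ ℓ ∈ (Icc 1 z).filter Nat.Prime, (1 - (nu a ℓ : ℝ) / ℓ) / (1 - 1 / (ℓ : ℝ)) ^ (s + 1)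

/-- No prime `ℓ` divides `r (r + a_1) ... (r + a_s)` for all `r`. -/
def Admissible {s : ℕ} (a : Fin s → ℕ) : Prop := ∀ ℓ : ℕ, ℓ.Prime → ∃ r : ℕ, ¬ ℓ ∣ r ∧ ∀ i, ¬ ℓ ∣ r + a i

/-- The number of the primes `p ≤ N` for which all the `p + a_i` are primes. -/
def tuples {s : ℕ} (a : Fin s → ℕ) (N : ℕ) : ℕ := ((Icc 1 N).filter (fun p : ℕ => p.Prime ∧ ∀ i, (p + a i).Prime)).card

/-- The same primes, counted with the weight `log p log (p + a_1) ... log (p + a_s)`. -/
noncomputable def weighted {s : ℕ} (a : Fin s → ℕ) (N : ℕ) : ℝ :=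
  ∑ p ∈ (Icc 1 N).filter (fun p : ℕ => p.Prime ∧ ∀ i, (p + a i).Prime), Real.log p * ∏ i, Real.log ((p : ℝ) + a i)

/-- The formula of Hardy and Littlewood for the shifts `a_1, ..., a_s` and the primes up to `N`: the singular series converges,
its value `S` predicts the weighted number of prime tuples with an error of at most `N / log ^ U N`, and, if the shifts are
admissible, `S` is positive and `S N / log ^ (s + 1) N` predicts the number of prime tuples with a relative error of at most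
`ε`. -/
def Holds {s : ℕ} (ε : ℝ) (U N : ℕ) (a : Fin s → ℕ) : Prop :=
  ∃ S : ℝ, Filter.Tendsto (sing a) Filter.atTop (nhds S) ∧ |weighted a N - S * N| ≤ (N : ℝ) / Real.log N ^ U ∧
    (Admissible a → 0 < S ∧ |(tuples a N : ℝ) - S * (N / Real.log N ^ (s + 1))| ≤ ε * (S * (N / Real.log N ^ (s + 1))))

/-! ### the forms of the starting files -/

open Pool.Agent.W93.TD (HLs)

lemma nu_eq {s : ℕ} (a : Fin s → ℕ) (ℓ : ℕ) : Pool.Agent.H373R2.T7.nuP (fun i => (a i : ℤ)) ℓ = nu a ℓ := by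
  unfold Pool.Agent.H373R2.T7.nuP nu
  congr 1
  apply filter_congr
  intro r _
  have : ∀ i, ((ℓ : ℤ) ∣ (r : ℤ) + (a i : ℤ)) ↔ ℓ ∣ r + a i := fun i => by
    rw [← Nat.cast_add]
    exact Int.natCast_dvd_natCast
  simp only [this]

lemma sing_eq {s : ℕ} (a : Fin s → ℕ) : Pool.Agent.H373R2.T7.singZ (fun i => (a i : ℤ)) = sing a := by
  funext z
  unfold Pool.Agent.H373R2.T7.singZ sing
  simp only [nu_eq]

lemma adm_of {s : ℕ} (a : Fin s → ℕ) (h : Admissible a) : Pool.Agent.H373R2.T7.Admissible (fun i => (a i : ℤ)) := by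
  intro ℓ hℓ
  obtain ⟨r, h1, h2⟩ := h ℓ hℓ
  refine ⟨(r : ℤ), fun h3 => h1 (by exact_mod_cast h3), fun i h3 => h2 i ?_⟩
  have h3' : (ℓ : ℤ) ∣ (r : ℤ) + (a i : ℤ) := h3
  rw [← Nat.cast_add] at h3'
  exact Int.natCast_dvd_natCast.1 h3'

lemma holds_of {s : ℕ} (ε : ℝ) (U N : ℕ) (a : Fin s → ℕ) (h : HLs (min ε 1) U N a) : Holds ε U N a := by
  obtain ⟨S, h1, h2, h3⟩ := h
  refine ⟨S, ?_, ?_, ?_⟩
  · rw [← sing_eq a]
    exact h1
  · rw [Pool.Agent.H560R3.GB.tupleCount_nat] at h2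
    exact h2
  · intro hadm
    obtain ⟨h4, h5⟩ := h3 (adm_of a hadm)
    refine ⟨h4, le_trans h5 ?_⟩
    apply mul_le_mul_of_nonneg_right (min_le_left _ _)
    have := Real.log_natCast_nonneg N
    positivity

/-! ### the theorem -/

open Pool.Agent.N469.SQ (Sm sm_one)
open Pool.Agent.N469.SM (SS mem_SS card_SS_pos)

lemma composed_eq (P : Finset ℕ) (x : ℕ) : composedOf P x = SS P x := rfl

open Classical in
lemma main (s : ℕ) (hs : 1 ≤ s) (κ : Fin s → ℕ) (hκ : ∀ i, 1 ≤ κ i) (B K U W : ℕ) (ε : ℝ) (hε : 0 < ε) (δ : ℝ) (hδ : 0 < δ) :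
    ∃ X₀ : ℕ, ∀ X : ℕ, X₀ ≤ X → ∀ x y : Fin s → ℕ, (∀ i, x i ≤ X) → (∀ i, X ≤ B * x i) →
    (∀ i, 1 ≤ y i) → (∀ i, (y i : ℝ) ≤ Real.log X ^ K) → ∀ c : Fin s → ℕ, (∀ i, c i ≤ B * X) →
    ∀ P : Fin s → Finset ℕ, (∀ i, ∀ p ∈ P i, p.Prime ∧ p ≤ y i) →
    (∀ i, (y i : ℝ) ^ (1 / 2 + δ) * Real.log X ≤ (P i).card) →
      (((Fintype.piFinset fun i => composedOf (P i) (x i)).filter fun v : Fin s → ℕ =>
        ¬ ∀ N : ℕ, X ≤ N → N ≤ B * X → ∀ t : Fin s → ℕ, (∀ i, (t i : ℝ) ≤ Real.log X ^ W) →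
          Holds ε U N (fun i => c i + κ i * v i + t i)).card : ℝ) ≤
      (∏ i, ((composedOf (P i) (x i)).card : ℝ)) / Real.log X ^ U := by
  obtain ⟨N₀, hN₀⟩ := Pool.Agent.H85G.one_shifts_all s hs (fun _ => Sm (δ / 2) ((B + 1) * B) K) κ hκ B U W (min ε 1)
    (lt_min hε one_pos) (min_le_right _ _)
    (fun i Bc U => sm_one (δ / 2) (by positivity) ((B + 1) * B) K (κ i) (hκ i) Bc U)
  have hev : ∀ᶠ X : ℕ in Filter.atTop, Real.log ((B : ℝ) + 1) + 1 ≤ Real.log X ∧ 2 ≤ Real.log X ^ (δ / 2) := by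
    have e1 : Filter.Tendsto (fun X : ℕ => Real.log (X : ℝ)) Filter.atTop Filter.atTop :=
      Real.tendsto_log_atTop.comp tendsto_natCast_atTop_atTop
    exact (e1.eventually_ge_atTop _).and (((tendsto_rpow_atTop (by positivity : 0 < δ / 2)).comp e1).eventually_ge_atTop _)
  obtain ⟨n₁, hn₁⟩ := Filter.eventually_atTop.mp hev
  refine ⟨N₀ + n₁ + 2, fun X hX x y hx1 hx2 hy1 hyK c hc P hP hPc => ?_⟩
  obtain ⟨g1, g2⟩ := hn₁ X (by omega)
  have hB0 : (0 : ℝ) ≤ B := Nat.cast_nonneg B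
  have hlB : 0 ≤ Real.log ((B : ℝ) + 1) := Real.log_nonneg (by linarith)
  have hl1 : 1 ≤ Real.log X := by linarith
  have hl0 : 0 < Real.log (X : ℝ) := by linarith
  have hX0 : 0 < X := by omega
  have hXr : (0 : ℝ) < X := by exact_mod_cast hX0
  have hx0 : ∀ i, 1 ≤ x i := by
    intro i
    rcases Nat.eq_zero_or_pos (x i) with h | h
    · have := hx2 i
      rw [h] at this
      omega
    · exact h
  have hS : ∀ i, (0 : ℝ) < ((SS (P i) (x i)).card : ℝ) := fun i => by exact_mod_cast card_SS_pos (P i) (hx0 i)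
  obtain ⟨p, hpd⟩ : ∃ p : Fin s → ℕ → ℝ, p = fun i _ => 1 / ((SS (P i) (x i)).card : ℝ) := ⟨_, rfl⟩
  have hp0 : ∀ i, ∀ v ∈ SS (P i) (x i), 0 ≤ p i v := fun i v _ => by
    rw [hpd]
    have := hS i
    positivity
  have hPv : ∀ v : Fin s → ℕ, ∏ i, p i (v i) = 1 / ∏ i, ((SS (P i) (x i)).card : ℝ) := fun v => by
    rw [hpd]
    simp only [one_div, prod_inv_distrib]
  have hPy : ∀ i, ((P i).card : ℝ) ≤ y i := by
    intro i
    have e1 : P i ⊆ Icc 1 (y i) := by
      intro q hq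
      rw [mem_Icc]
      exact ⟨(hP i q hq).1.one_lt.le, (hP i q hq).2⟩
    have e2 := card_le_card e1
    rw [Nat.card_Icc] at e2
    exact_mod_cast (by omega : (P i).card ≤ y i)
  have hyr : ∀ i, (1 : ℝ) ≤ y i := fun i => by exact_mod_cast hy1 i
  have hly : ∀ i, Real.log X ≤ y i := by
    intro i
    have e1 : (1 : ℝ) ≤ (y i : ℝ) ^ (1 / 2 + δ) := Real.one_le_rpow (hyr i) (by linarith)
    have e2 : 1 * Real.log X ≤ (y i : ℝ) ^ (1 / 2 + δ) * Real.log X := mul_le_mul_of_nonneg_right e1 hl0.le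
    linarith [hPc i, hPy i]
  have hmain := hN₀ X (by omega) (fun i => SS (P i) (x i)) p (fun N hN1 hN2 i => by
    have hlN1 : Real.log X ≤ Real.log N := Real.log_le_log hXr (by exact_mod_cast hN1)
    have hlN2 : Real.log N ≤ 2 * Real.log X := by
      have e1 : (N : ℝ) ≤ ((B : ℝ) + 1) * X := by exact_mod_cast hN2
      have e2 : Real.log N ≤ Real.log (((B : ℝ) + 1) * X) := Real.log_le_log (by exact_mod_cast (by omega : 0 < N)) e1
      rw [Real.log_mul (by positivity) (by positivity)] at e2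
      linarith
    refine ⟨P i, y i, x i, (hx1 i).trans hN1, ?_, hP i, hy1 i, (hyK i).trans (pow_le_pow_left₀ hl0.le hlN1 _), ?_, rfl,
      by rw [hpd]⟩
    · calc N ≤ (B + 1) * X := hN2
        _ ≤ (B + 1) * (B * x i) := Nat.mul_le_mul_left _ (hx2 i)
        _ = _ := by ring
    · refine le_trans ?_ (hPc i)
      have e1 : (2 : ℝ) ≤ (y i : ℝ) ^ (δ / 2) := g2.trans (Real.rpow_le_rpow hl0.le (hly i) (by positivity))
      have e2 : (y i : ℝ) ^ (1 / 2 + δ) = (y i : ℝ) ^ (1 / 2 + δ / 2) * (y i : ℝ) ^ (δ / 2) := by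
        rw [← Real.rpow_add (by linarith [hyr i])]
        congr 1
        ring
      have e3 : 0 ≤ (y i : ℝ) ^ (1 / 2 + δ / 2) := by positivity
      rw [e2]
      calc (y i : ℝ) ^ (1 / 2 + δ / 2) * Real.log N ≤ (y i : ℝ) ^ (1 / 2 + δ / 2) * (2 * Real.log X) :=
            mul_le_mul_of_nonneg_left hlN2 e3
        _ ≤ (y i : ℝ) ^ (1 / 2 + δ / 2) * ((y i : ℝ) ^ (δ / 2) * Real.log X) := by gcongr
        _ = _ := by ring) (fun i v hv => by
    have hv' : v ∈ composedOf (P i) (x i) := hv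
    unfold composedOf at hv'
    exact (mem_Icc.1 (mem_filter.1 hv').1).2.trans (hx1 i)) hp0 c hc
  have hprod : (0 : ℝ) < ∏ i, ((SS (P i) (x i)).card : ℝ) := prod_pos fun i _ => hS i
  have hfin : ∑ v ∈ Fintype.piFinset (fun i => SS (P i) (x i)), (if ∀ N : ℕ, X ≤ N → N ≤ B * X →
        ∀ t : Fin s → ℕ, (∀ i, (t i : ℝ) ≤ Real.log X ^ W) → Holds ε U N (fun i => c i + κ i * v i + t i) then 0
        else ∏ i, p i (v i)) ≤ 1 / Real.log X ^ U := by
    refine le_trans (sum_le_sum fun v hv => ?_) hmain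
    have hP0 : 0 ≤ ∏ i, p i (v i) := prod_nonneg fun i _ => hp0 i _ (Fintype.mem_piFinset.1 hv i)
    by_cases h : ∀ N : ℕ, X ≤ N → N ≤ B * X →
        ∀ t : Fin s → ℕ, (∀ i, (t i : ℝ) ≤ Real.log X ^ W) → HLs (min ε 1) U N (fun i => c i + κ i * v i + t i)
    · rw [if_pos h, if_pos]
      intro N hN1 hN2 t ht
      exact holds_of ε U N _ (h N hN1 hN2 t ht)
    · rw [if_neg h]
      split_ifs
      · exact hP0
      · exact le_rfl
  simp only [hPv, composed_eq] at hfin ⊢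
  rw [div_eq_mul_one_div]
  have e5 : ((((Fintype.piFinset fun i => SS (P i) (x i)).filter fun v : Fin s → ℕ =>
        ¬ ∀ N : ℕ, X ≤ N → N ≤ B * X → ∀ t : Fin s → ℕ, (∀ i, (t i : ℝ) ≤ Real.log X ^ W) →
          Holds ε U N (fun i => c i + κ i * v i + t i)).card : ℝ)) =
      (∏ i, ((SS (P i) (x i)).card : ℝ)) * ∑ v ∈ Fintype.piFinset (fun i => SS (P i) (x i)),
        (if ∀ N : ℕ, X ≤ N → N ≤ B * X → ∀ t : Fin s → ℕ, (∀ i, (t i : ℝ) ≤ Real.log X ^ W) →
          Holds ε U N (fun i => c i + κ i * v i + t i) then 0 else 1 / ∏ i, ((SS (P i) (x i)).card : ℝ)) := by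
    rw [card_filter, mul_sum]
    push_cast
    refine sum_congr rfl fun v _ => ?_
    by_cases h : ∀ N : ℕ, X ≤ N → N ≤ B * X → ∀ t : Fin s → ℕ, (∀ i, (t i : ℝ) ≤ Real.log X ^ W) →
          Holds ε U N (fun i => c i + κ i * v i + t i)
    · rw [if_neg (not_not.2 h), if_pos h, mul_zero]
    · rw [if_pos h, if_neg h]
      field_simp
  rw [e5]
  exact mul_le_mul_of_nonneg_left hfin hprod.le

open Classical in
/-- Let `s ≥ 1`, `κ_i ≥ 1`, `B`, `K`, `U`, `W`, `ε > 0` and `δ > 0` be fixed and let `X` be large. For `i < s` let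
`x_i ≤ X ≤ B x_i`, `1 ≤ y_i ≤ log ^ K X` and `c_i ≤ B X`.

(1) Let `P_i` be arbitrary sets of primes which are at most `y_i`, with at least `y_i ^ (1 / 2 + δ) log X` elements. Then
all the vectors `(v_1, ..., v_s)` of integers `v_i ≤ x_i` composed of primes from `P_i`, up to a proportion of at most
`1 / log ^ U X` of them, have the following property: for ALL `N` with `X ≤ N ≤ B X` and ALL the shifts
`a_i = c_i + κ_i v_i + t_i`, `0 ≤ t_i ≤ log ^ W X`, the formula of Hardy and Littlewood holds for the primes `p ≤ N` for which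
all the `p + a_i` are primes.

(2) In particular this holds for all the vectors of `y_i`-smooth integers `v_i ≤ x_i`, up to a proportion of at most
`1 / log ^ U X` of them, if `y_i ≥ log ^ (2 + δ) X`. -/
theorem result (s : ℕ) (hs : 1 ≤ s) (κ : Fin s → ℕ) (hκ : ∀ i, 1 ≤ κ i) (B K U W : ℕ) (ε : ℝ) (hε : 0 < ε) (δ : ℝ) (hδ : 0 < δ) :
    ∃ X₀ : ℕ, ∀ X : ℕ, X₀ ≤ X → ∀ x y : Fin s → ℕ, (∀ i, x i ≤ X) → (∀ i, X ≤ B * x i) →
    (∀ i, 1 ≤ y i) → (∀ i, (y i : ℝ) ≤ Real.log X ^ K) → ∀ c : Fin s → ℕ, (∀ i, c i ≤ B * X) →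
    (∀ P : Fin s → Finset ℕ, (∀ i, ∀ p ∈ P i, p.Prime ∧ p ≤ y i) →
      (∀ i, (y i : ℝ) ^ (1 / 2 + δ) * Real.log X ≤ (P i).card) →
        (((Fintype.piFinset fun i => composedOf (P i) (x i)).filter fun v : Fin s → ℕ =>
          ¬ ∀ N : ℕ, X ≤ N → N ≤ B * X → ∀ t : Fin s → ℕ, (∀ i, (t i : ℝ) ≤ Real.log X ^ W) →
            Holds ε U N (fun i => c i + κ i * v i + t i)).card : ℝ) ≤
        (∏ i, ((composedOf (P i) (x i)).card : ℝ)) / Real.log X ^ U) ∧
    ((∀ i, Real.log X ^ (2 + δ) ≤ y i) →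
        (((Fintype.piFinset fun i => smooth (y i) (x i)).filter fun v : Fin s → ℕ =>
          ¬ ∀ N : ℕ, X ≤ N → N ≤ B * X → ∀ t : Fin s → ℕ, (∀ i, (t i : ℝ) ≤ Real.log X ^ W) →
            Holds ε U N (fun i => c i + κ i * v i + t i)).card : ℝ) ≤
        (∏ i, ((smooth (y i) (x i)).card : ℝ)) / Real.log X ^ U) := by
  obtain ⟨δ', n1, hδ', h1⟩ := Pool.Agent.N469.SQ.PR_cond δ hδ
  obtain ⟨n2, h2⟩ := main s hs κ hκ B K U W ε hε δ hδ
  obtain ⟨n3, h3⟩ := main s hs κ hκ B K U W ε hε δ' hδ'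
  refine ⟨n1 + n2 + n3, fun X hX x y hx1 hx2 hy1 hyK c hc =>
    ⟨fun P hP hPc => h2 X (by omega) x y hx1 hx2 hy1 hyK c hc P hP hPc, fun hy => ?_⟩⟩
  have e1 : ∀ i, smooth (y i) (x i) = composedOf (Pool.Agent.N469.SQ.PR (y i)) (x i) :=
    fun i => Pool.Agent.N469.TL.smooth_eq (y i) (x i)
  simp only [e1]
  exact h3 X (by omega) x y hx1 hx2 hy1 hyK c hc (fun i => Pool.Agent.N469.SQ.PR (y i))
    (fun i p hp => Pool.Agent.N469.SQ.mem_PR.1 hp) (fun i => (h1 X (by omega) (y i) (hy i)).2)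

end Pool.Agent.Results.MP_68a45e_nt.SmoothShifts
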